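import Mathlib

/-!
# Right orders on central extensions: a pair that violates the Conrad condition

Let `K` be a group with a right order `<` and a pair `1 < f < g` which violates the Conrad
condition.  We prove that `g` and `g f⁻¹` freely generate a free monoid modulo every normal
subgroup contained in a term of the upper central series; and that, for `Z` central such that all
right orders on `K / Z` are Conrad (and there is one), some element of `Z` exceeds all powers of
`g`.
-/

set_option autoImplicit false

namespace Pool.Agent.Helper600.ConradCentre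

universe u v

/-- `r` is a right order on `K` (strict total order, `f < g` implies `f h < g h`). -/
structure IsRightOrder {K : Type*} [Group K] (r : K → K → Prop) : Prop where
  irrefl : ∀ a, ¬ r a a
  trans : ∀ a b c, r a b → r b c → r a c
  total : ∀ a b, a ≠ b → r a b ∨ r b a
  mul_right : ∀ f g h, r f g → r (f * h) (g * h)

/-- The Conrad condition for the pair `f, g`: if `1 < f < g` then `f g ^ m f⁻¹ > g` for some
positive integer `m`. -/
def ConradPair {K : Type*} [Group K] (r : K → K → Prop) (f g : K) : Prop :=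
  r 1 f → r f g → ∃ m : ℕ, 0 < m ∧ r g (f * g ^ m * f⁻¹)

/-- Every right order on `K` is a Conrad right order. -/
def EveryRightOrderConrad (K : Type*) [Group K] : Prop :=
  ∀ r : K → K → Prop, IsRightOrder r → ∀ f g : K, ConradPair r f g

/-- The value in `K` of a word in two letters, the letter `true` standing for `a` and `false`
for `b`. -/
def word {K : Type*} [Group K] (a b : K) (l : List Bool) : K :=
  (l.map (fun c => if c then a else b)).prod

/-- `a` and `b` freely generate a free monoid: different (possibly empty) words in `a` and `b` have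
different values. -/
def FreelyGenerate {K : Type*} [Group K] (a b : K) : Prop :=
  Function.Injective (word a b)

section Words

variable {K : Type*} [Group K]

@[simp] lemma word_nil (a b : K) : word a b [] = 1 := rfl

lemma word_append (a b : K) (l m : List Bool) :
    word a b (l ++ m) = word a b l * word a b m := by
  simp [word]

lemma word_single (a b : K) (c : Bool) : word a b [c] = if c then a else b := by
  simp [word]

lemma last_eq {u v : List Bool} {c d : Bool} (h : u ++ [c] = v ++ [d]) : c = d := by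
  have := congrArg List.getLast? h
  simpa using this

/-- No nonempty word in free generators of a free monoid is central. -/
lemma eq_nil_of_central {a b : K} (h : FreelyGenerate a b) {v : List Bool}
    (hv : ∀ y : K, word a b v * y = y * word a b v) : v = [] := by
  rcases List.eq_nil_or_concat' v with rfl | ⟨v', c, rfl⟩
  · rfl
  · exfalso
    have h1 : ∀ d : Bool, c = d := by
      intro d
      have h2 : word a b ((v' ++ [c]) ++ [d]) = word a b (([d] ++ v') ++ [c]) := by
        rw [word_append, hv, ← word_append]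
        simp
      exact (last_eq (h h2)).symm
    have h3 := h1 true
    have h4 := h1 false
    rw [h3] at h4
    exact absurd h4 (by decide)

/-- Words in free generators of a free monoid that agree up to a central factor are equal. -/
lemma eq_of_mul_central {a b : K} (h : FreelyGenerate a b) (z : K) (hz : ∀ y : K, z * y = y * z)
    (u : List Bool) : ∀ v : List Bool, word a b u = word a b v * z → u = v := by
  have hz' : ∀ y : K, z⁻¹ * y = y * z⁻¹ := by
    intro y
    rw [inv_mul_eq_iff_eq_mul, ← mul_assoc, hz y, mul_assoc, mul_inv_cancel, mul_one]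
  induction u using List.reverseRecOn with
  | nil =>
    intro v hv
    rw [word_nil] at hv
    have h1 : word a b v = z⁻¹ := eq_inv_of_mul_eq_one_left hv.symm
    exact (eq_nil_of_central h (by rw [h1]; exact hz')).symm
  | append_singleton u' c ih =>
    intro v hv
    rcases List.eq_nil_or_concat' v with rfl | ⟨v', d, rfl⟩
    · rw [word_nil, one_mul] at hv
      exact eq_nil_of_central h (by rw [hv]; exact hz)
    · by_cases hcd : c = d
      · subst hcd
        have h1 : word a b u' = word a b v' * z := by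
          rw [word_append, word_append, mul_assoc, ← hz, ← mul_assoc] at hv
          exact mul_right_cancel hv
        rw [ih v' h1]
      · exfalso
        have h2 : word a b ((u' ++ [c]) ++ (v' ++ [d])) = word a b ((v' ++ [d]) ++ (u' ++ [c])) := by
          rw [word_append a b (u' ++ [c]), word_append a b (v' ++ [d]), hv, mul_assoc, hz]
        have h3 := h h2
        rw [← List.append_assoc, ← List.append_assoc] at h3
        exact hcd (last_eq h3).symm

/-- Freeness survives modulo a central subgroup. -/
lemma free_of_central {H : Type*} [Group H] (π : K →* H)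
    (hπ : ∀ x : K, π x = 1 → ∀ y : K, x * y = y * x) {a b : K} (h : FreelyGenerate a b) :
    FreelyGenerate (π a) (π b) := by
  have hw : ∀ l : List Bool, word (π a) (π b) l = π (word a b l) := by
    intro l
    induction l with
    | nil => simp
    | cons c l ih =>
      have e1 : c :: l = [c] ++ l := rfl
      rw [e1, word_append, word_append, ih, map_mul, word_single, word_single]
      cases c <;> simp
  intro u v huv
  rw [hw, hw] at huv
  refine eq_of_mul_central h ((word a b v)⁻¹ * word a b u) ?_ u v ?_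
  · apply hπ
    rw [map_mul, map_inv, huv, inv_mul_cancel]
  · rw [mul_inv_cancel_left]

end Words

section Order

variable {K : Type*} [Group K] [LinearOrder K]

lemma mul_le (hr : ∀ a b c : K, a < b → a * c < b * c) {a b : K} (c : K) (h : a ≤ b) :
    a * c ≤ b * c := by
  rcases h.eq_or_lt with rfl | h
  · exact le_rfl
  · exact (hr _ _ c h).le

lemma pow_le (hr : ∀ a b c : K, a < b → a * c < b * c) {g : K} (hg : 1 < g) {m n : ℕ}
    (h : m ≤ n) : g ^ m ≤ g ^ n := by
  refine monotone_nat_of_le_succ (f := fun m => g ^ m) ?_ h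
  intro n
  have := hr 1 g (g ^ n) hg
  rw [one_mul, ← pow_succ'] at this
  exact this.le

lemma key (hr : ∀ a b c : K, a < b → a * c < b * c) {f g : K} (hf : 1 < f) (hfg : f < g)
    (hbad : ∀ m : ℕ, 0 < m → ¬ g < f * g ^ m * f⁻¹) (m : ℕ) : f * g ^ m < g * f := by
  have h1 : f * g ^ (m + 1) ≤ g * f := by
    by_contra h
    push Not at h
    have := hr _ _ f⁻¹ h
    rw [mul_inv_cancel_right] at this
    exact hbad (m + 1) (Nat.succ_pos m) this
  have h2 := hr _ _ (g ^ m) hfg
  rw [← pow_succ'] at h2
  have h3 := hr _ _ (g ^ (m + 1)) hf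
  rw [one_mul] at h3
  exact h2.trans (h3.trans_le h1)

/-- The map `x ↦ x g f⁻¹` sends everything below the powers of `g` to something below `g`. -/
lemma mul_T_lt (hr : ∀ a b c : K, a < b → a * c < b * c) {f g : K} (hf : 1 < f)
    (hk : ∀ m : ℕ, f * g ^ m < g * f) {x : K} {m : ℕ} (hx : x ≤ g ^ m) : x * (g * f⁻¹) < g := by
  have h1 := mul_le hr g hx
  rw [← pow_succ] at h1
  have h3 := hr _ _ (g ^ (m + 1)) hf
  rw [one_mul] at h3
  have h4 := hr _ _ f⁻¹ (h1.trans_lt (h3.trans (hk (m + 1))))
  rw [mul_inv_cancel_right] at h4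
  rwa [mul_assoc] at h4

/-- Ping-pong: a pair violating the Conrad condition gives a free monoid. -/
lemma free_of_bad (hr : ∀ a b c : K, a < b → a * c < b * c) {f g : K} (hf : 1 < f) (hfg : f < g)
    (hk : ∀ m : ℕ, f * g ^ m < g * f) : FreelyGenerate g (g * f⁻¹) := by
  have hg : 1 < g := hf.trans hfg
  have hI : ∀ w : List Bool, 1 ≤ word g (g * f⁻¹) w ∧ ∃ m : ℕ, word g (g * f⁻¹) w ≤ g ^ m := by
    intro w
    induction w using List.reverseRecOn with
    | nil => exact ⟨le_rfl, 0, by simp⟩
    | append_singleton w c ih =>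
      obtain ⟨h1, m, h2⟩ := ih
      have h3 := mul_le hr g h1
      rw [one_mul] at h3
      rw [word_append, word_single]
      cases c
      · simp only [Bool.false_eq_true, if_false]
        refine ⟨?_, 1, ?_⟩
        · have h5 := hr _ _ f⁻¹ (hfg.trans_le h3)
          rw [mul_inv_cancel, mul_assoc] at h5
          exact h5.le
        · rw [pow_one]
          exact (mul_T_lt hr hf hk h2).le
      · simp only [if_true]
        refine ⟨hg.le.trans h3, m + 1, ?_⟩
        rw [pow_succ]
        exact mul_le hr g h2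
  have hne : ∀ (u v : List Bool), word g (g * f⁻¹) (u ++ [true]) ≠
      word g (g * f⁻¹) (v ++ [false]) := by
    intro u v h
    rw [word_append, word_append, word_single, word_single] at h
    simp only [Bool.false_eq_true, if_false, if_true] at h
    have h3 := mul_le hr g (hI u).1
    rw [one_mul] at h3
    obtain ⟨m, h2⟩ := (hI v).2
    exact absurd (h ▸ mul_T_lt hr hf hk h2) (not_lt.mpr h3)
  have hne1 : ∀ (u : List Bool) (c : Bool), word g (g * f⁻¹) (u ++ [c]) ≠ 1 := by
    intro u c h
    have h3 := mul_le hr g (hI u).1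
    rw [one_mul] at h3
    rw [word_append, word_single] at h
    cases c
    · simp only [Bool.false_eq_true, if_false] at h
      have h5 := hr _ _ f⁻¹ (hfg.trans_le h3)
      rw [mul_inv_cancel, mul_assoc, h] at h5
      exact lt_irrefl _ h5
    · simp only [if_true] at h
      rw [h] at h3
      exact absurd hg (not_lt.mpr h3)
  intro u
  induction u using List.reverseRecOn with
  | nil =>
    intro v hv
    rcases List.eq_nil_or_concat' v with rfl | ⟨v', d, rfl⟩
    · rfl
    · exact absurd hv.symm (hne1 v' d)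
  | append_singleton u' c ih =>
    intro v hv
    rcases List.eq_nil_or_concat' v with rfl | ⟨v', d, rfl⟩
    · exact absurd hv (hne1 u' c)
    · have hcd : c = d := by
        cases c <;> cases d
        · rfl
        · exact absurd hv.symm (hne v' u')
        · exact absurd hv (hne u' v')
        · rfl
      subst hcd
      rw [word_append, word_append] at hv
      rw [ih (mul_right_cancel hv)]

/-- The main construction: if the central kernel is dominated by the powers of `g`, a pair violating
the Conrad condition in `K` gives such a pair for some right order on the quotient. -/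
lemma main {G : Type*} [Group G] (hr : ∀ a b c : K, a < b → a * c < b * c) {f g : K} (hf : 1 < f)
    (hfg : f < g) (hk : ∀ m : ℕ, f * g ^ m < g * f) (π : K →* G) (hsurj : Function.Surjective π)
    (hker : ∀ x : K, π x = 1 → ∀ y : K, x * y = y * x)
    (hdom : ∀ x : K, π x = 1 → ∃ n : ℕ, x ≤ g ^ n)
    (r1 : G → G → Prop) (hr1 : IsRightOrder r1) (hC : EveryRightOrderConrad G) : False := by
  classical
  have hg : 1 < g := hf.trans hfg
  set T : K := g * f⁻¹ with hT
  let Y : Set K := {x | ∃ m : ℕ, x ≤ g ^ m}
  let X : Set K := {w | ∀ n : ℕ, w * (T⁻¹) ^ n ∈ Y}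
  have Ylow : ∀ x y : K, x ≤ y → y ∈ Y → x ∈ Y := fun x y h ⟨m, hm⟩ => ⟨m, h.trans hm⟩
  have Xlow : ∀ x y : K, x ≤ y → y ∈ X → x ∈ X := fun x y h hy n =>
    Ylow _ _ (mul_le hr _ h) (hy n)
  have YT : ∀ w ∈ Y, w * T < g := fun w ⟨m, hm⟩ => mul_T_lt hr hf hk hm
  have gY : ∀ n : ℕ, g ^ n ∈ Y := fun n => ⟨n, le_rfl⟩
  have YTm : ∀ w ∈ Y, w * T ∈ Y := fun w hw => ⟨1, by rw [pow_one]; exact (YT w hw).le⟩
  have Yz : ∀ z : K, π z = 1 → ∀ w ∈ Y, w * z ∈ Y := by
    rintro z hz w ⟨m, hm⟩
    obtain ⟨k, hk'⟩ := hdom z hz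
    refine ⟨k + m, ?_⟩
    calc w * z ≤ g ^ m * z := mul_le hr _ hm
      _ = z * g ^ m := (hker z hz _).symm
      _ ≤ g ^ k * g ^ m := mul_le hr _ hk'
      _ = g ^ (k + m) := (pow_add _ _ _).symm
  have Xz : ∀ z : K, π z = 1 → ∀ w ∈ X, w * z ∈ X := by
    intro z hz w hw n
    rw [mul_assoc, hker z hz, ← mul_assoc]
    exact Yz z hz _ (hw n)
  have XT1 : ∀ w ∈ X, w * T⁻¹ ∈ X := by
    intro w hw n
    have := hw (n + 1)
    rwa [pow_succ', ← mul_assoc] at this
  have XT2 : ∀ w, w * T⁻¹ ∈ X → w ∈ X := by
    intro w hw n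
    cases n with
    | zero =>
      have h1 := hw 0
      rw [pow_zero, mul_one] at h1
      have h2 := YTm _ h1
      rw [inv_mul_cancel_right] at h2
      rwa [pow_zero, mul_one]
    | succ n =>
      have := hw n
      rwa [mul_assoc, ← pow_succ'] at this
  have XTn : ∀ (n : ℕ) (w : K), w * (T⁻¹) ^ n ∈ X ↔ w ∈ X := by
    intro n
    induction n with
    | zero => intro w; rw [pow_zero, mul_one]
    | succ n ih =>
      intro w
      rw [pow_succ, ← mul_assoc]
      exact ⟨fun h => (ih w).mp (XT2 _ h), fun h => XT1 _ ((ih w).mpr h)⟩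
  have Tinv : T⁻¹ ≤ 1 := by
    have := hr _ _ g⁻¹ hfg
    rw [mul_inv_cancel] at this
    rw [hT, mul_inv_rev, inv_inv]
    exact this.le
  have Tpow : ∀ n : ℕ, (T⁻¹) ^ n ≤ 1 := by
    intro n
    induction n with
    | zero => rw [pow_zero]
    | succ n ih =>
      rw [pow_succ']
      have := mul_le hr ((T⁻¹) ^ n) Tinv
      rw [one_mul] at this
      exact this.trans ih
  have oneX : (1 : K) ∈ X := fun n => ⟨0, by rw [one_mul, pow_zero]; exact Tpow n⟩
  have Xlt : ∀ w ∈ X, w < g := by
    intro w hw
    have h1 := hw 1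
    rw [pow_one] at h1
    have h2 := YT _ h1
    rwa [inv_mul_cancel_right] at h2
  have gX : g ∉ X := fun h => lt_irrefl _ (Xlt g h)
  -- the translates of `X`
  let A : K → Set K := fun a => {w | w * a⁻¹ ∈ X}
  have Amem : ∀ a w, w ∈ A a ↔ w * a⁻¹ ∈ X := fun a w => Iff.rfl
  have Alow : ∀ a x y : K, x ≤ y → y ∈ A a → x ∈ A a := fun a x y h hy =>
    Xlow _ _ (mul_le hr _ h) hy
  have Acomp : ∀ a b : K, A a ⊆ A b ∨ A b ⊆ A a := by
    intro a b
    by_contra hcon
    push Not at hcon
    obtain ⟨h1, h2⟩ := hcon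
    obtain ⟨x, hx, hx'⟩ := Set.not_subset.mp h1
    obtain ⟨y, hy, hy'⟩ := Set.not_subset.mp h2
    rcases le_total x y with h | h
    · exact hx' (Alow b x y h hy)
    · exact hy' (Alow a y x h hx)
  have Amul : ∀ a c w : K, w ∈ A (a * c) ↔ w * c⁻¹ ∈ A a := by
    intro a c w
    rw [Amem, Amem, mul_inv_rev, mul_assoc]
  have Aker : ∀ a b : K, π a = π b → A a ⊆ A b := by
    intro a b hab w hw
    rw [Amem] at hw ⊢
    have hz : π (a * b⁻¹) = 1 := by rw [map_mul, map_inv, hab, mul_inv_cancel]
    have h1 := Xz _ hz _ hw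
    rwa [mul_assoc, inv_mul_cancel_left] at h1
  have AkerEq : ∀ a b : K, π a = π b → A a = A b := fun a b h =>
    Set.Subset.antisymm (Aker a b h) (Aker b a h.symm)
  have ATn : ∀ (n : ℕ), A ((T⁻¹) ^ n) = X := by
    intro n
    ext w
    rw [Amem]
    constructor
    · intro h
      have := (XTn n _).mpr h
      rwa [inv_mul_cancel_right] at this
    · intro h
      rw [← XTn n]
      rwa [inv_mul_cancel_right]
  -- `T` is not in the kernel
  have hTker : π T⁻¹ ≠ 1 := by
    intro h
    have h0 : π T = 1 := by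
      rw [map_inv, inv_eq_one] at h
      exact h
    have h1 := Yz _ h _ (gY 1)
    have h2 := YT _ h1
    rw [inv_mul_cancel_right, pow_one] at h2
    exact lt_irrefl _ h2
  -- a right order on `G` for which `T⁻¹` is positive
  obtain ⟨r0, hr0, hpos⟩ : ∃ r0 : G → G → Prop, IsRightOrder r0 ∧ r0 1 (π T⁻¹) := by
    rcases hr1.total 1 (π T⁻¹) (Ne.symm hTker) with h | h
    · exact ⟨r1, hr1, h⟩
    · exact ⟨fun a b => r1 b a, ⟨fun a => hr1.irrefl a, fun a b c h1 h2 => hr1.trans _ _ _ h2 h1,
        fun a b hab => (hr1.total a b hab).symm, fun a b c h1 => hr1.mul_right _ _ _ h1⟩, h⟩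
  have hpown : ∀ n : ℕ, 0 < n → r0 1 ((π T⁻¹) ^ n) := by
    intro n hn
    induction n, hn using Nat.le_induction with
    | base => simpa using hpos
    | succ n hn ih =>
      have h1 := hr0.mul_right _ _ ((π T⁻¹) ^ n) hpos
      rw [one_mul, ← pow_succ'] at h1
      exact hr0.trans _ _ _ ih h1
  -- the new right order
  let s : G → K := Function.surjInv hsurj
  have hs : ∀ α, π (s α) = α := Function.surjInv_eq hsurj
  let R : G → G → Prop := fun α β => A (s α) ⊂ A (s β) ∨ (A (s α) = A (s β) ∧ r0 α β)
  have hRπ : ∀ a b : K, R (π a) (π b) ↔ (A a ⊂ A b ∨ (A a = A b ∧ r0 (π a) (π b))) := by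
    intro a b
    have e1 : A (s (π a)) = A a := AkerEq _ _ (hs _)
    have e2 : A (s (π b)) = A b := AkerEq _ _ (hs _)
    change (A (s (π a)) ⊂ A (s (π b)) ∨ (A (s (π a)) = A (s (π b)) ∧ r0 (π a) (π b))) ↔ _
    rw [e1, e2]
  have hRorder : IsRightOrder R := by
    refine ⟨?_, ?_, ?_, ?_⟩
    · rintro α (h | h)
      · exact (ssubset_irrefl _) h
      · exact hr0.irrefl _ h.2
    · rintro α β γ (h1 | h1) (h2 | h2)
      · exact Or.inl (h1.trans h2)
      · left; rw [← h2.1]; exact h1
      · left; rw [h1.1]; exact h2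
      · exact Or.inr ⟨h1.1.trans h2.1, hr0.trans _ _ _ h1.2 h2.2⟩
    · intro α β hαβ
      by_cases he : A (s α) = A (s β)
      · rcases hr0.total α β hαβ with h | h
        · exact Or.inl (Or.inr ⟨he, h⟩)
        · exact Or.inr (Or.inr ⟨he.symm, h⟩)
      · rcases Acomp (s α) (s β) with h | h
        · exact Or.inl (Or.inl (h.ssubset_of_ne he))
        · exact Or.inr (Or.inl (h.ssubset_of_ne (Ne.symm he)))
    · intro α β γ h
      obtain ⟨a, rfl⟩ := hsurj α
      obtain ⟨b, rfl⟩ := hsurj β
      obtain ⟨c, rfl⟩ := hsurj γ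
      rw [← map_mul, ← map_mul, hRπ]
      rw [hRπ] at h
      rcases h with h | h
      · left
        refine ⟨fun w hw => ?_, fun hcon => ?_⟩
        · rw [Amul] at hw ⊢
          exact h.1 hw
        · obtain ⟨x, hx, hx'⟩ := Set.not_subset.mp h.2
          have h1 : x * c ∈ A (b * c) := by rw [Amul, mul_inv_cancel_right]; exact hx
          have h2 := hcon h1
          rw [Amul, mul_inv_cancel_right] at h2
          exact hx' h2
      · right
        refine ⟨?_, ?_⟩
        · ext w
          rw [Amul, Amul, h.1]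
        · rw [map_mul, map_mul]
          exact hr0.mul_right _ _ _ h.2
  -- the exponent
  have hex : ∃ n : ℕ, g * (T⁻¹) ^ n ∉ Y := by
    by_contra hcon
    push Not at hcon
    exact gX hcon
  obtain ⟨j, hj⟩ := hex
  have hj0 : 0 < j := by
    rcases Nat.eq_zero_or_pos j with rfl | h
    · exfalso
      apply hj
      rw [pow_zero, mul_one]
      have := gY 1
      rwa [pow_one] at this
    · exact h
  have hA1 : A 1 = X := by
    have := ATn 0
    rwa [pow_zero] at this
  have hXAg : X ⊂ A g := by
    have hg1 : g ∈ A g := by rw [Amem, mul_inv_cancel]; exact oneX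
    rcases Acomp 1 g with h | h
    · rw [hA1] at h
      exact ⟨h, fun hcon => gX (hcon hg1)⟩
    · rw [hA1] at h
      exact absurd (h hg1) gX
  have h1F : R 1 (π ((T⁻¹) ^ j)) := by
    have h := (hRπ 1 ((T⁻¹) ^ j)).mpr (Or.inr ⟨by rw [hA1, ATn], by
      rw [map_one, map_pow]; exact hpown j hj0⟩)
    rwa [map_one] at h
  have hFE : R (π ((T⁻¹) ^ j)) (π g) := by
    rw [hRπ, ATn]
    exact Or.inl hXAg
  obtain ⟨m, hm, hconrad⟩ := hC R hRorder _ _ h1F hFE
  have h5 := hRorder.mul_right _ _ (π ((T⁻¹) ^ j)) hconrad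
  rw [inv_mul_cancel_right, ← map_pow, ← map_mul, ← map_mul, hRπ] at h5
  have h6 : A (g * (T⁻¹) ^ j) ⊆ A ((T⁻¹) ^ j * g ^ m) := by
    rcases h5 with h | h
    · exact h.1
    · exact h.1.subset
  have h7 : g ^ (m + 1) ∈ A (g * (T⁻¹) ^ j) := by
    rw [Amul, Amem]
    apply Xlow _ 1 _ oneX
    have h8 : g ^ (m + 1) < g * (T⁻¹) ^ j := by
      by_contra hcon
      push Not at hcon
      exact hj (Ylow _ _ hcon (gY (m + 1)))
    have h9 := hr _ _ ((T⁻¹) ^ j)⁻¹ h8
    rw [mul_inv_cancel_right] at h9
    have h10 := hr _ _ g⁻¹ h9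
    rw [mul_inv_cancel] at h10
    exact h10.le
  have h11 := h6 h7
  rw [Amul, ATn] at h11
  have h12 := Xlt _ h11
  have h13 := hr _ _ (g ^ m) h12
  rw [inv_mul_cancel_right, ← pow_succ'] at h13
  exact lt_irrefl _ h13

end Order

section Final

variable {K : Type u} [Group K]

lemma free_of_map {H : Type v} [Group H] (π : K →* H) {a b : K}
    (h : FreelyGenerate (π a) (π b)) : FreelyGenerate a b := by
  have hw : ∀ l : List Bool, word (π a) (π b) l = π (word a b l) := by
    intro l
    induction l with
    | nil => simp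
    | cons c l ih =>
      have e1 : c :: l = [c] ++ l := rfl
      rw [e1, word_append, word_append, ih, map_mul, word_single, word_single]
      cases c <;> simp
  intro u v huv
  apply h
  rw [hw, hw, huv]

lemma free_upper {a b : K} (h : FreelyGenerate a b) (n : ℕ) :
    FreelyGenerate (a : K ⧸ Subgroup.upperCentralSeries K n)
      (b : K ⧸ Subgroup.upperCentralSeries K n) := by
  induction n with
  | zero =>
    refine free_of_central (QuotientGroup.mk' (Subgroup.upperCentralSeries K 0)) ?_ h
    intro x hx y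
    have h1 : x ∈ Subgroup.upperCentralSeries K 0 := (QuotientGroup.eq_one_iff x).mp hx
    rw [Subgroup.upperCentralSeries_zero, Subgroup.mem_bot] at h1
    rw [h1, one_mul, mul_one]
  | succ n ih =>
    let π : K ⧸ Subgroup.upperCentralSeries K n →* K ⧸ Subgroup.upperCentralSeries K (n + 1) :=
      QuotientGroup.map _ _ (MonoidHom.id K) (by
        intro x hx
        exact Subgroup.upperCentralSeries_mono K (Nat.le_succ n) hx)
    refine free_of_central π ?_ ih
    intro x hx y
    obtain ⟨x, rfl⟩ := QuotientGroup.mk_surjective x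
    obtain ⟨y, rfl⟩ := QuotientGroup.mk_surjective y
    have h1 : x ∈ Subgroup.upperCentralSeries K (n + 1) := (QuotientGroup.eq_one_iff x).mp hx
    rw [Subgroup.mem_upperCentralSeries_succ_iff] at h1
    have h2 : (x : K ⧸ Subgroup.upperCentralSeries K n) * (y : K ⧸ Subgroup.upperCentralSeries K n) *
        (x : K ⧸ Subgroup.upperCentralSeries K n)⁻¹ *
        (y : K ⧸ Subgroup.upperCentralSeries K n)⁻¹ = 1 :=
      (QuotientGroup.eq_one_iff _).mpr (h1 y)
    rw [mul_inv_eq_one, mul_inv_eq_iff_eq_mul] at h2
    exact h2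

lemma hlin {r : K → K → Prop} (hr : IsRightOrder r) {f g : K} (hbad : ¬ ConradPair r f g) :
    FreelyGenerate g (g * f⁻¹) ∧
      ∀ (G : Type v) (_ : Group G) (π : K →* G), Function.Surjective π →
        (∀ x : K, π x = 1 → ∀ y : K, x * y = y * x) → (∃ s : G → G → Prop, IsRightOrder s) →
        EveryRightOrderConrad G → ∃ z : K, π z = 1 ∧ ∀ n : ℕ, r (g ^ n) z := by
  classical
  have hsto : IsStrictTotalOrder K r :=
    { irrefl := hr.irrefl
      trans := hr.trans
      trichotomous := fun a b h1 h2 => by
        by_contra hab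
        rcases hr.total a b hab with h | h
        · exact h1 h
        · exact h2 h }
  let _ : LinearOrder K := linearOrderOfSTO r
  have hmul : ∀ a b c : K, a < b → a * c < b * c := fun a b c h => hr.mul_right _ _ _ h
  unfold ConradPair at hbad
  push Not at hbad
  obtain ⟨hf, hfg, hb⟩ := hbad
  have hk := key hmul (f := f) (g := g) hf hfg (fun m hm h => hb m hm h)
  refine ⟨free_of_bad hmul hf hfg hk, ?_⟩
  intro G _ π hsurj hcen ⟨s, hs⟩ hC
  by_contra hcon
  push Not at hcon
  refine main hmul (f := f) (g := g) hf hfg hk π hsurj hcen ?_ s hs hC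
  intro x hx
  obtain ⟨n, hn⟩ := hcon x hx
  exact ⟨n, not_lt.mp hn⟩

/-- Part 1. -/
theorem part1 {r : K → K → Prop} {f g : K} (hr : IsRightOrder r) (hbad : ¬ ConradPair r f g)
    (n : ℕ) (N : Subgroup K) [N.Normal] (hN : N ≤ Subgroup.upperCentralSeries K n) :
    FreelyGenerate (g : K ⧸ N) ((g * f⁻¹ : K) : K ⧸ N) := by
  have h2 := free_upper (hlin.{u, u} hr hbad).1 n
  let π : K ⧸ N →* K ⧸ Subgroup.upperCentralSeries K n :=
    QuotientGroup.map _ _ (MonoidHom.id K) hN
  exact free_of_map π h2

/-- Part 2. -/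
theorem part2 {r : K → K → Prop} {f g : K} (hr : IsRightOrder r) (hbad : ¬ ConradPair r f g)
    (G : Type v) [Group G] (Z : Subgroup K) [Z.Normal] (e : K ⧸ Z ≃* G)
    (hZ : Z ≤ Subgroup.center K) (hs : ∃ s : G → G → Prop, IsRightOrder s)
    (hC : EveryRightOrderConrad G) : ∃ z ∈ Z, ∀ n : ℕ, r (g ^ n) z := by
  let π : K →* G := (e : K ⧸ Z →* G).comp (QuotientGroup.mk' Z)
  have hker : ∀ x : K, π x = 1 → x ∈ Z := by
    intro x hx
    have h3 : e (x : K ⧸ Z) = 1 := hx
    rw [map_eq_one_iff e e.injective] at h3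
    exact (QuotientGroup.eq_one_iff x).mp h3
  obtain ⟨z, hz, h⟩ := (hlin hr hbad).2 G inferInstance π
    (e.surjective.comp (QuotientGroup.mk'_surjective Z))
    (fun x hx y => ((Subgroup.mem_center_iff.mp (hZ (hker x hx))) y).symm) hs hC
  exact ⟨z, hker z hz, h⟩

end Final

end Pool.Agent.Helper600.ConradCentre
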