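import Pool.Agent.Helper277.J1
import Pool.Agent.Helper277.J12
import Pool.Agent.Helper277.Central

/-!
# Lower central factors of finitely generated groups with a central two-sided order
-/

set_option autoImplicit false

namespace Helper600.LCFactor

open ConradSol

universe u

/-- a central two-sided order restricts to subgroups -/
theorem centralCone_subgroup {G : Type u} [Group G] {P : Set G} (hP : CentralCone P)
    (H : Subgroup G) : CentralCone {x : H | (x : G) ∈ P} := by
  refine ⟨⟨⟨?_, ?_, ?_⟩, ?_⟩, ?_⟩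
  · intro x hx y hy
    exact hP.mul_mem _ hx _ hy
  · exact hP.one_not_mem
  · intro x hx
    exact hP.total (x : G) (fun h1 => hx (Subtype.ext h1))
  · intro g x hx
    exact hP.conj_mem (g : G) _ hx
  · intro g h hh k
    have := hP.central (g : G) h hh k
    simpa using this

/-- a convex subgroup contains the roots of its elements -/
theorem conv_root {G : Type u} [Group G] {P : Set G} (hP : CentralCone P) {U : Subgroup G}
    (hU : Conv P U) {x : G} {n : ℕ} (hn : 0 < n) (h : x ^ n ∈ U) : x ∈ U := by
  have key : ∀ x : G, x ∈ P → x ^ n ∈ U → x ∈ U := by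
    intro x hx h
    obtain ⟨k, rfl⟩ : ∃ k, n = k + 1 := ⟨n - 1, by omega⟩
    by_cases hk : k = 0
    · subst hk
      simpa using h
    · refine hU x hx _ h ?_
      rw [pow_succ, mul_inv_cancel_right]
      exact hP.toBiCone.toCone.pow_mem hx (Nat.one_le_iff_ne_zero.mpr hk)
  rcases hP.toBiCone.toCone.trich x with h1 | h1 | h1
  · exact key x h1 h
  · rw [h1]
    exact one_mem U
  · have h2 := key x⁻¹ h1 (by rw [inv_pow]; exact inv_mem h)
    simpa using inv_mem h2

/-- the convex jump of an element different from one -/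
theorem exists_jump {G : Type u} [Group G] {P : Set G} (hP : CentralCone P) {c : G} (hc : c ≠ 1) :
    ∃ W : Subgroup G, Conv P W ∧ c ∉ W ∧ ∀ y, y * c * y⁻¹ * c⁻¹ ∈ W := by
  rcases hP.total c hc with h | h
  · exact exists_W hP h
  · obtain ⟨W, hW, h1, h2⟩ := exists_W hP h
    have hWn := hW.normal hP
    refine ⟨W, hW, fun h3 => h1 (inv_mem h3), fun y => ?_⟩
    have h3 := hWn.conj_mem _ (inv_mem (h2 y)) c
    rwa [show c * (y * c⁻¹ * y⁻¹ * c⁻¹⁻¹)⁻¹ * c⁻¹ = y * c * y⁻¹ * c⁻¹ by group] at h3

theorem exists_common {G : Type u} [Group G] {P : Set G} (hP : CentralCone P) (S : Finset G)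
    (hS : ∃ s ∈ S, s ≠ 1) :
    ∃ W : Subgroup G, Conv P W ∧ (∃ s ∈ S, s ∉ W) ∧ ∀ t ∈ S, ∀ y, y * t * y⁻¹ * t⁻¹ ∈ W := by
  classical
  induction S using Finset.induction_on with
  | empty =>
    obtain ⟨s, hs, -⟩ := hS
    simp at hs
  | insert a S ha ih =>
    by_cases hS' : ∃ s ∈ S, s ≠ 1
    · obtain ⟨W, hW, ⟨s, hs, hsW⟩, hW'⟩ := ih hS'
      by_cases ha1 : a = 1
      · refine ⟨W, hW, ⟨s, Finset.mem_insert_of_mem hs, hsW⟩, ?_⟩
        intro t ht y
        rcases Finset.mem_insert.mp ht with rfl | ht
        · rw [ha1]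
          simp [W.one_mem]
        · exact hW' t ht y
      · obtain ⟨V, hV, haV, hV'⟩ := exists_jump hP ha1
        rcases hW.total hP hV with h | h
        · refine ⟨V, hV, ⟨a, Finset.mem_insert_self a S, haV⟩, ?_⟩
          intro t ht y
          rcases Finset.mem_insert.mp ht with rfl | ht
          · exact hV' y
          · exact h (hW' t ht y)
        · refine ⟨W, hW, ⟨s, Finset.mem_insert_of_mem hs, hsW⟩, ?_⟩
          intro t ht y
          rcases Finset.mem_insert.mp ht with rfl | ht
          · exact h (hV' y)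
          · exact hW' t ht y
    · push Not at hS'
      have ha1 : a ≠ 1 := by
        obtain ⟨s, hs, hs1⟩ := hS
        rcases Finset.mem_insert.mp hs with rfl | hs
        · exact hs1
        · exact absurd (hS' s hs) hs1
      obtain ⟨V, hV, haV, hV'⟩ := exists_jump hP ha1
      refine ⟨V, hV, ⟨a, Finset.mem_insert_self a S, haV⟩, ?_⟩
      intro t ht y
      rcases Finset.mem_insert.mp ht with rfl | ht
      · exact hV' y
      · rw [hS' t ht]
        simp [V.one_mem]

/-- A finitely generated group with a central two-sided order whose `n`-th lower central factor is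
periodic is nilpotent, the `n`-th term being trivial. -/
theorem lowerCentralSeries_eq_bot {X : Type u} [Group X] [Group.FG X] {P : Set X}
    (hP : CentralCone P) (n : ℕ)
    (h : ∀ x ∈ (⊤ : Subgroup X).lowerCentralSeries n, ∃ k : ℕ, 0 < k ∧
      x ^ k ∈ (⊤ : Subgroup X).lowerCentralSeries (n + 1)) :
    (⊤ : Subgroup X).lowerCentralSeries n = ⊥ := by
  classical
  obtain ⟨S, hS⟩ := lcs_finite_normalClosure (F := X) n
  by_cases hS1 : ∃ s ∈ S, s ≠ 1
  · exfalso
    obtain ⟨W, hW, ⟨s, hs, hsW⟩, hW'⟩ := exists_common hP S hS1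
    have hWn := hW.normal hP
    -- everything in `γ_n` is central modulo `W`
    have hcen : (⊤ : Subgroup X).lowerCentralSeries n ≤
        (Subgroup.center (X ⧸ W)).comap (QuotientGroup.mk' W) := by
      rw [hS]
      refine Subgroup.normalClosure_le_normal ?_
      intro t ht
      rw [SetLike.mem_coe, Subgroup.mem_comap, Subgroup.mem_center_iff]
      intro q
      obtain ⟨y, rfl⟩ := QuotientGroup.mk'_surjective W q
      have h1 := hW' t ht y
      rw [← map_mul, ← map_mul]
      change ((y * t : X) : X ⧸ W) = ((t * y : X) : X ⧸ W)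
      rw [QuotientGroup.eq]
      have h2 := hWn.conj_mem _ (inv_mem h1) (t * y)⁻¹
      have h3 : (t * y)⁻¹ * (y * t * y⁻¹ * t⁻¹)⁻¹ * (t * y)⁻¹⁻¹ = (y * t)⁻¹ * (t * y) := by
        group
      rwa [h3] at h2
    have hle : (⊤ : Subgroup X).lowerCentralSeries (n + 1) ≤ W := by
      rw [Subgroup.lowerCentralSeries_succ, Subgroup.commutator_le]
      intro a ha b _
      have h1 := hcen ha
      rw [Subgroup.mem_comap, Subgroup.mem_center_iff] at h1
      have h2 := h1 (QuotientGroup.mk' W b)
      rw [← map_mul, ← map_mul] at h2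
      change ((b * a : X) : X ⧸ W) = ((a * b : X) : X ⧸ W) at h2
      rw [QuotientGroup.eq] at h2
      have h3 := hWn.conj_mem _ h2 (b * a)
      have h4 : b * a * ((b * a)⁻¹ * (a * b)) * (b * a)⁻¹ = a * b * a⁻¹ * b⁻¹ := by
        group
      rw [h4] at h3
      rwa [commutatorElement_def]
    have hsn : s ∈ (⊤ : Subgroup X).lowerCentralSeries n := by
      rw [hS]
      exact Subgroup.subset_normalClosure (Finset.mem_coe.mpr hs)
    obtain ⟨k, hk, h1⟩ := h s hsn
    exact hsW (conv_root hP hW hk (hle h1))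
  · push Not at hS1
    rw [hS, eq_bot_iff]
    refine Subgroup.normalClosure_le_normal ?_
    intro s hs
    rw [hS1 s (Finset.mem_coe.mp hs)]
    exact Subgroup.one_mem _

end Helper600.LCFactor
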